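import Pool.Agent.W31.LD.Defs

/-!
# Project LD: random signs (part T_Prob)
-/

set_option autoImplicit false

namespace Pool.Agent.W412.LD

open Finset

/-- the sum of the signs -/
noncomputable def S {α : Type} (J : Finset α) (φ : α → ℕ) (F : Finset ℕ) : ℝ :=
  ∑ j ∈ J, (if φ j ∈ F then (1 : ℝ) else -1)

/-- the multiplicity of a value -/
noncomputable def nn {α : Type} (J : Finset α) (φ : α → ℕ) (v : ℕ) : ℝ :=
  (({j ∈ J | φ j = v} : Finset α).card : ℝ)

theorem S_eq {α : Type} (J : Finset α) (φ : α → ℕ) (V F : Finset ℕ) (hV : ∀ j ∈ J, φ j ∈ V)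
    (hF : F ⊆ V) : S J φ F = ∑ v ∈ F, nn J φ v + ∑ v ∈ V \ F, -nn J φ v := by
  classical
  unfold S
  rw [← Finset.sum_fiberwise_of_maps_to hV]
  have h1 : ∀ v ∈ V, ∑ j ∈ J with φ j = v, (if φ j ∈ F then (1 : ℝ) else -1) =
      nn J φ v * (if v ∈ F then (1 : ℝ) else -1) := by
    intro v _
    have h2 : ∀ j ∈ J.filter (fun j => φ j = v), (if φ j ∈ F then (1 : ℝ) else -1) =
        (if v ∈ F then (1 : ℝ) else -1) := by
      intro j hj
      rw [(Finset.mem_filter.1 hj).2]
    rw [Finset.sum_congr rfl h2, Finset.sum_const, nsmul_eq_mul]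
    rfl
  rw [Finset.sum_congr rfl h1, ← Finset.sum_sdiff hF, add_comm]
  congr 1
  · refine Finset.sum_congr rfl fun v hv => ?_
    rw [if_pos hv, mul_one]
  · refine Finset.sum_congr rfl fun v hv => ?_
    rw [if_neg (Finset.mem_sdiff.1 hv).2]
    ring

theorem mgf {α : Type} (J : Finset α) (φ : α → ℕ) (V : Finset ℕ) (hV : ∀ j ∈ J, φ j ∈ V) (l : ℝ) :
    ∑ F ∈ V.powerset, Real.exp (l * S J φ F) =
      ∏ v ∈ V, (Real.exp (l * nn J φ v) + Real.exp (-(l * nn J φ v))) := by
  classical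
  rw [Finset.prod_add]
  refine Finset.sum_congr rfl fun F hF => ?_
  rw [S_eq J φ V F hV (Finset.mem_powerset.1 hF), ← Real.exp_sum, ← Real.exp_sum, ← Real.exp_add]
  congr 1
  rw [mul_add, Finset.mul_sum, Finset.mul_sum]
  congr 1
  refine Finset.sum_congr rfl fun v _ => ?_
  ring

theorem mgf_le {α : Type} (J : Finset α) (φ : α → ℕ) (V : Finset ℕ) (hV : ∀ j ∈ J, φ j ∈ V)
    (l p : ℝ) (hp : ∀ τ : ℕ, nn J φ τ ≤ p * J.card) :
    ∑ F ∈ V.powerset, Real.exp (l * S J φ F) ≤
      2 ^ V.card * Real.exp (l ^ 2 * (p * (J.card : ℝ) ^ 2) / 2) := by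
  classical
  rw [mgf J φ V hV l]
  have hn : ∀ v, 0 ≤ nn J φ v := fun v => Nat.cast_nonneg _
  have h1 : ∏ v ∈ V, (Real.exp (l * nn J φ v) + Real.exp (-(l * nn J φ v))) ≤
      ∏ v ∈ V, (2 * Real.exp ((l * nn J φ v) ^ 2 / 2)) := by
    refine Finset.prod_le_prod (fun v _ => by positivity) fun v _ => ?_
    have h2 := Real.cosh_le_exp_half_sq (l * nn J φ v)
    rw [Real.cosh_eq] at h2
    linarith
  refine h1.trans ?_
  rw [Finset.prod_mul_distrib, Finset.prod_const, ← Real.exp_sum]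
  refine mul_le_mul_of_nonneg_left (Real.exp_le_exp.2 ?_) (by positivity)
  have hsum : ∑ v ∈ V, nn J φ v = J.card := by
    unfold nn
    rw [← Nat.cast_sum]
    congr 1
    exact (Finset.card_eq_sum_card_fiberwise hV).symm
  calc ∑ v ∈ V, (l * nn J φ v) ^ 2 / 2 = l ^ 2 / 2 * ∑ v ∈ V, nn J φ v * nn J φ v := by
        rw [Finset.mul_sum]
        refine Finset.sum_congr rfl fun v _ => ?_
        ring
    _ ≤ l ^ 2 / 2 * ∑ v ∈ V, (p * J.card) * nn J φ v := by
        refine mul_le_mul_of_nonneg_left (Finset.sum_le_sum fun v _ => ?_) (by positivity)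
        exact mul_le_mul_of_nonneg_right (hp v) (hn v)
    _ = l ^ 2 * (p * (J.card : ℝ) ^ 2) / 2 := by
        rw [← Finset.mul_sum, hsum]
        ring

theorem done : W31LD.T_Prob := by
  classical
  intro α J Φ p δ hp hδ hφ hcard
  rcases J.eq_empty_or_nonempty with rfl | hJ
  · exact ⟨fun _ => true, fun φ _ => by simp⟩
  have hJ0 : (0 : ℝ) < J.card := by exact_mod_cast Finset.card_pos.2 hJ
  set V : Finset ℕ := Φ.biUnion fun φ => J.image φ with hVdef
  have hV : ∀ φ ∈ Φ, ∀ j ∈ J, φ j ∈ V := fun φ h j hj =>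
    Finset.mem_biUnion.2 ⟨φ, h, Finset.mem_image_of_mem _ hj⟩
  set bad : (α → ℕ) → Finset (Finset ℕ) := fun φ =>
    V.powerset.filter fun F => δ * J.card < |S J φ F| with hbad
  have hb : ∀ φ ∈ Φ, ((bad φ).card : ℝ) ≤ 2 * 2 ^ V.card * Real.exp (-(δ ^ 2 / (2 * p))) := by
    intro φ hφ'
    set l : ℝ := δ / (p * J.card) with hl
    have hl0 : 0 < l := by positivity
    have hexp : l ^ 2 * (p * (J.card : ℝ) ^ 2) / 2 = δ ^ 2 / (2 * p) := by
      rw [hl]; field_simp
    have hlow : δ ^ 2 / p = l * (δ * J.card) := by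
      rw [hl]; field_simp
    have h1 := mgf_le J φ V (hV φ hφ') l p (hφ φ hφ')
    have h2 := mgf_le J φ V (hV φ hφ') (-l) p (hφ φ hφ')
    rw [hexp] at h1
    rw [neg_sq, hexp] at h2
    have h3 : ((bad φ).card : ℝ) * Real.exp (δ ^ 2 / p) ≤
        ∑ F ∈ V.powerset, (Real.exp (l * S J φ F) + Real.exp (-l * S J φ F)) := by
      calc ((bad φ).card : ℝ) * Real.exp (δ ^ 2 / p) = ∑ F ∈ bad φ, Real.exp (δ ^ 2 / p) := by
            rw [Finset.sum_const, nsmul_eq_mul]
        _ ≤ ∑ F ∈ bad φ, (Real.exp (l * S J φ F) + Real.exp (-l * S J φ F)) := by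
            refine Finset.sum_le_sum fun F hF => ?_
            have h4 : δ * J.card < |S J φ F| := (Finset.mem_filter.1 hF).2
            rw [hlow]
            rcases le_total 0 (S J φ F) with h5 | h5
            · rw [abs_of_nonneg h5] at h4
              have h6 : Real.exp (l * (δ * J.card)) ≤ Real.exp (l * S J φ F) :=
                Real.exp_le_exp.2 (mul_le_mul_of_nonneg_left h4.le hl0.le)
              have h7 := Real.exp_pos (-l * S J φ F)
              linarith
            · rw [abs_of_nonpos h5] at h4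
              have h6 : Real.exp (l * (δ * J.card)) ≤ Real.exp (-l * S J φ F) := by
                refine Real.exp_le_exp.2 ?_
                have := mul_le_mul_of_nonneg_left h4.le hl0.le
                linarith
              have h7 := Real.exp_pos (l * S J φ F)
              linarith
        _ ≤ _ := Finset.sum_le_sum_of_subset_of_nonneg (Finset.filter_subset _ _)
            fun F _ _ => by positivity
    rw [Finset.sum_add_distrib] at h3
    have h4 : Real.exp (δ ^ 2 / p) = Real.exp (δ ^ 2 / (2 * p)) * Real.exp (δ ^ 2 / (2 * p)) := by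
      rw [← Real.exp_add]
      congr 1
      field_simp
      ring
    rw [Real.exp_neg, ← div_eq_mul_inv, le_div_iff₀ (Real.exp_pos _)]
    have h5 := Real.exp_pos (δ ^ 2 / (2 * p))
    refine le_of_mul_le_mul_right ?_ h5
    calc ((bad φ).card : ℝ) * Real.exp (δ ^ 2 / (2 * p)) * Real.exp (δ ^ 2 / (2 * p))
        = ((bad φ).card : ℝ) * Real.exp (δ ^ 2 / p) := by rw [h4]; ring
      _ ≤ 2 * 2 ^ V.card * Real.exp (δ ^ 2 / (2 * p)) := by linarith
  -- a good set
  have hgood : ∃ F ∈ V.powerset, ∀ φ ∈ Φ, F ∉ bad φ := by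
    by_contra hcon
    push Not at hcon
    have h1 : V.powerset ⊆ Φ.biUnion bad := by
      intro F hF
      obtain ⟨φ, h2, h3⟩ := hcon F hF
      exact Finset.mem_biUnion.2 ⟨φ, h2, h3⟩
    have h2 : ((V.powerset.card : ℕ) : ℝ) ≤ ∑ φ ∈ Φ, ((bad φ).card : ℝ) := by
      have := (Finset.card_le_card h1).trans Finset.card_biUnion_le
      exact_mod_cast this
    rw [Finset.card_powerset] at h2
    push_cast at h2
    have h3 : ∑ φ ∈ Φ, ((bad φ).card : ℝ) ≤
        Φ.card * (2 * 2 ^ V.card * Real.exp (-(δ ^ 2 / (2 * p)))) := by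
      calc ∑ φ ∈ Φ, ((bad φ).card : ℝ) ≤
          ∑ φ ∈ Φ, (2 * 2 ^ V.card * Real.exp (-(δ ^ 2 / (2 * p)))) := Finset.sum_le_sum hb
        _ = _ := by rw [Finset.sum_const, nsmul_eq_mul]
    have h4 : (2 * (Φ.card : ℝ)) * Real.exp (-(δ ^ 2 / (2 * p))) < 1 := by
      rw [Real.exp_neg, ← div_eq_mul_inv, div_lt_one (Real.exp_pos _)]
      exact hcard
    have h5 : (0 : ℝ) < 2 ^ V.card := by positivity
    have h6 : (Φ.card : ℝ) * (2 * 2 ^ V.card * Real.exp (-(δ ^ 2 / (2 * p)))) =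
        2 ^ V.card * ((2 * (Φ.card : ℝ)) * Real.exp (-(δ ^ 2 / (2 * p)))) := by ring
    rw [h6] at h3
    have h7 := mul_lt_mul_of_pos_left h4 h5
    linarith
  obtain ⟨F, hF, hF'⟩ := hgood
  refine ⟨fun v => decide (v ∈ F), fun φ h => ?_⟩
  have h1 := hF' φ h
  rw [hbad, Finset.mem_filter, not_and, not_lt] at h1
  have h2 := h1 hF
  unfold S at h2
  simpa using h2

end Pool.Agent.W412.LD
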